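import Pool.Agent.Mob.Stmts

/-!
# Metal-insulator transport transition, module CMP, part 1: tails, counting, limits
-/

set_option autoImplicit false
set_option linter.unusedSectionVars false

open MeasureTheory ProbabilityTheory Function Filter

open scoped ENNReal BigOperators Topology ComplexConjugate InnerProductSpace

noncomputable section

namespace Pool.Agent.Mob.H46

open Pool.Agent.Anderson Pool.Agent.Loc Pool.Agent.Helper54.Bal Pool.Agent.Mob

variable {d : ℕ}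

/-- decay from the centres -/
def CenC (V : Site d → ℝ) (I : Set ℝ) (μ C₁ : ℝ) (R₀ : ℕ) : Prop :=
  ∀ (n : ℕ) (E : ℝ) (ψ : Site d → ℂ) (c : Site d), E ∈ I →
    FinEig V n E ψ → IsCenter n ψ c → 4 * sd 0 c ≤ 3 * n → ∀ x : Site d,
      4 * sd 0 x ≤ 3 * n → R₀ ≤ sd c x → 100 * sd 0 c ≤ (sd c x) ^ 2 →
      ‖ψ x‖ ≤ C₁ * Real.exp (-(μ / 8) * sd c x) * ‖ψ c‖

/-- Uniform decay of the eigenfunctions whose centres are in a given box. -/
theorem udecay {V : Site d → ℝ} {I : Set ℝ} {μ C₁ : ℝ} {R₀ : ℕ} (hμ : 0 < μ) (hC₁ : 1 ≤ C₁)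
    (hdec : CenC V I μ C₁ R₀) (R : ℕ) :
    ∃ C : ℝ, 0 < C ∧ ∀ (n : ℕ) (E : ℝ) (ψ : Site d → ℂ) (c : Site d), E ∈ I →
      FinEig V n E ψ → IsCenter n ψ c → 4 * sd 0 c ≤ 3 * n → sd 0 c ≤ R → ∀ x : Site d,
        4 * sd 0 x ≤ 3 * n → ‖ψ x‖ ≤ C * Real.exp (-(μ / 8) * sd 0 x) := by
  refine ⟨C₁ * Real.exp (μ / 8 * (R₀ + 101 * R + 1)), by positivity, ?_⟩
  intro n E ψ c hE hψ hc hcn hcR x hxn
  have htri : sd 0 x ≤ sd 0 c + sd c x := sd_triangle 0 c x
  have hψc : ‖ψ c‖ ≤ 1 := hψ.le_one c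
  by_cases hcase : R₀ ≤ sd c x ∧ 100 * sd 0 c ≤ (sd c x) ^ 2
  · refine (hdec n E ψ c hE hψ hc hcn x hxn hcase.1 hcase.2).trans ?_
    calc C₁ * Real.exp (-(μ / 8) * sd c x) * ‖ψ c‖ ≤ C₁ * Real.exp (-(μ / 8) * sd c x) * 1 := by
          gcongr
      _ ≤ C₁ * (Real.exp (μ / 8 * (R₀ + 101 * R + 1)) * Real.exp (-(μ / 8) * sd 0 x)) := by
          rw [mul_one]
          gcongr
          rw [← Real.exp_add]
          apply Real.exp_le_exp.2
          have h1 : (sd 0 x : ℝ) ≤ R + sd c x := by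
            have : sd 0 x ≤ R + sd c x := by omega
            exact_mod_cast this
          have h2 : (0:ℝ) ≤ R₀ := by positivity
          have h3 : (0:ℝ) ≤ R := by positivity
          nlinarith
      _ = _ := by ring
  · have hsx : sd 0 x ≤ R₀ + 101 * R + 1 := by
      rw [not_and_or, not_le, not_le] at hcase
      rcases hcase with h1 | h1
      · omega
      · have : sd c x ≤ 100 * sd 0 c := by
          by_contra hcon
          push Not at hcon
          nlinarith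
        omega
    have h1 : (sd 0 x : ℝ) ≤ R₀ + 101 * R + 1 := by exact_mod_cast hsx
    calc ‖ψ x‖ ≤ 1 := hψ.le_one x
      _ ≤ C₁ * (Real.exp (μ / 8 * (R₀ + 101 * R + 1)) * Real.exp (-(μ / 8) * sd 0 x)) := by
          rw [← Real.exp_add]
          have h2 : (1:ℝ) ≤ Real.exp (μ / 8 * (R₀ + 101 * R + 1) + -(μ / 8) * sd 0 x) := by
            apply Real.one_le_exp
            nlinarith
          nlinarith
      _ = _ := by ring

/-- The eigenfunctions with far away centres have small total weight at a given site,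
uniformly in the volume. -/
theorem tail {V : Site d → ℝ} {I : Set ℝ} {μ C₁ : ℝ} {R₀ : ℕ} (hμ : 0 < μ)
    (hdec : CenC V I μ C₁ R₀) (y : Site d) {ε : ℝ} (hε : 0 < ε) :
    ∃ R : ℕ, ∀ R' : ℕ, R ≤ R' → ∀ (n : ℕ), 4 * sd 0 y ≤ 3 * n → ∀ (b : FB V n)
      (J : Finset (box (0 : Site d) n)), (∀ j ∈ J, b.E j ∈ I ∧ 4 * sd 0 (b.c j) ≤ 3 * n ∧
        R' < sd 0 (b.c j)) → ∑ j ∈ J, ‖b.ψ j y‖ ^ 2 ≤ ε := by
  have hs := (summable_exp_sd (show 0 < μ / 4 by positivity) y).mul_left (C₁ ^ 2)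
  have hv := (summable_iff_vanishing_norm (E := ℝ)).1 hs ε hε
  obtain ⟨s, hs'⟩ := hv
  -- a radius beyond all of `s`
  obtain ⟨R₁, hR₁⟩ : ∃ R₁ : ℕ, ∀ x ∈ s, sd 0 x ≤ R₁ := ⟨s.sup fun x => sd 0 x, fun x hx =>
    Finset.le_sup (f := fun x => sd 0 x) hx⟩
  refine ⟨R₁ + 2 * sd 0 y + 2 * R₀ + 400, ?_⟩
  intro R' hR' n hyn b J hJ
  have hfib := Finset.sum_fiberwise_of_maps_to
    (s := J)
    (t := (box (0 : Site d) n).filter fun c => R' < sd 0 c) (g := b.c)
    (fun j hj => by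
      rw [Finset.mem_filter]
      exact ⟨(b.cen j).1, (hJ j hj).2.2⟩) (fun j => ‖b.ψ j y‖ ^ 2)
  rw [← hfib]
  have hb : ∀ c ∈ (box (0 : Site d) n).filter (fun c => R' < sd 0 c),
      ∑ j ∈ J with b.c j = c,
        ‖b.ψ j y‖ ^ 2 ≤ C₁ ^ 2 * Real.exp (-(μ / 4) * sd c y) := by
    intro c hc
    rw [Finset.mem_filter] at hc
    calc _ ≤ ∑ j ∈ J with b.c j = c,
          C₁ ^ 2 * Real.exp (-(μ / 4) * sd c y) * ‖b.ψ j c‖ ^ 2 := by
          apply Finset.sum_le_sum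
          intro j hj
          rw [Finset.mem_filter] at hj
          obtain ⟨hj, rfl⟩ := hj
          obtain ⟨hE, hcn, hR⟩ := hJ j hj
          have hsd : sd 0 (b.c j) ≤ sd 0 y + sd (b.c j) y := by
            have := sd_triangle 0 y (b.c j)
            rw [sd_comm y] at this
            exact this
          have h1 := hdec n (b.E j) (b.ψ j) (b.c j) hE (b.fin j) (b.cen j) hcn y hyn (by omega)
            (by
              have h2 : sd 0 (b.c j) ≤ 2 * sd (b.c j) y := by omega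
              have h3 : 200 ≤ sd (b.c j) y := by omega
              nlinarith)
          have h2 : Real.exp (-(μ / 4) * sd (b.c j) y) =
              Real.exp (-(μ / 8) * sd (b.c j) y) ^ 2 := by
            rw [← Real.exp_nat_mul]; congr 1; push_cast; ring
          rw [h2]
          calc ‖b.ψ j y‖ ^ 2 ≤ (C₁ * Real.exp (-(μ / 8) * sd (b.c j) y) * ‖b.ψ j (b.c j)‖) ^ 2 :=
                pow_le_pow_left₀ (norm_nonneg _) h1 2
            _ = _ := by ring
      _ ≤ ∑ j, C₁ ^ 2 * Real.exp (-(μ / 4) * sd c y) * ‖b.ψ j c‖ ^ 2 := by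
          apply Finset.sum_le_sum_of_subset_of_nonneg (Finset.subset_univ _)
          intro j _ _
          positivity
      _ = C₁ ^ 2 * Real.exp (-(μ / 4) * sd c y) * ∑ j, ‖b.ψ j c‖ ^ 2 := by
          rw [Finset.mul_sum]
      _ ≤ C₁ ^ 2 * Real.exp (-(μ / 4) * sd c y) * 1 :=
          mul_le_mul_of_nonneg_left (b.bessel c) (by positivity)
      _ = _ := mul_one _
  refine (Finset.sum_le_sum hb).trans ?_
  have hdisj : Disjoint ((box (0 : Site d) n).filter fun c => R' < sd 0 c) s := by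
    rw [Finset.disjoint_left]
    intro c hc hcs
    rw [Finset.mem_filter] at hc
    have := hR₁ c hcs
    omega
  have := hs' _ hdisj
  rw [Real.norm_eq_abs] at this
  exact (le_abs_self _).trans this.le

/-- The number of eigenfunctions with centres in a given box and small mass near the boundary is
bounded uniformly in the volume. -/
theorem count {V : Site d → ℝ} {I : Set ℝ} {μ C₁ : ℝ} {R₀ : ℕ} (hμ : 0 < μ) (hC₁ : 1 ≤ C₁)
    (hdec : CenC V I μ C₁ R₀) (R : ℕ) :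
    ∃ N : ℕ, ∀ (k : ℕ) (b : FB V (8 * k)) (J : Finset (box (0 : Site d) (8 * k))),
      (∀ j ∈ J, b.E j ∈ I ∧ 4 * sd 0 (b.c j) ≤ 3 * (8 * k) ∧
        ∑ x ∈ box (0 : Site d) (8 * k) \ box 0 (5 * k), ‖b.ψ j x‖ ^ 2 ≤ 1 / 4 ∧
        sd 0 (b.c j) ≤ R) → J.card ≤ N := by
  obtain ⟨C, hC, hud⟩ := udecay hμ hC₁ hdec R
  have hs := (summable_exp_sd (show 0 < μ / 4 by positivity) (0 : Site d)).mul_left (C ^ 2)
  obtain ⟨s, hs'⟩ := (summable_iff_vanishing_norm (E := ℝ)).1 hs (1 / 4) (by norm_num)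
  refine ⟨2 * s.card, ?_⟩
  intro k b J hJ
  have h1 : ∀ j ∈ J, 1 / 2 ≤ ∑ x ∈ s, ‖b.ψ j x‖ ^ 2 := by
    intro j hj
    obtain ⟨hE, hcn, hm, hcR⟩ := hJ j hj
    have h2 := (b.fin j).norm
    have h3 : ∑ x ∈ box (0 : Site d) (8 * k), ‖b.ψ j x‖ ^ 2 ≤
        ∑ x ∈ s, ‖b.ψ j x‖ ^ 2 + (∑ x ∈ box (0 : Site d) (5 * k) \ s, ‖b.ψ j x‖ ^ 2 +
          ∑ x ∈ box (0 : Site d) (8 * k) \ box 0 (5 * k), ‖b.ψ j x‖ ^ 2) := by
      have e1 : ∑ x ∈ s ∪ ((box (0 : Site d) (5 * k) \ s) ∪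
          (box (0 : Site d) (8 * k) \ box 0 (5 * k))), ‖b.ψ j x‖ ^ 2 ≤
          ∑ x ∈ s, ‖b.ψ j x‖ ^ 2 + (∑ x ∈ box (0 : Site d) (5 * k) \ s, ‖b.ψ j x‖ ^ 2 +
          ∑ x ∈ box (0 : Site d) (8 * k) \ box 0 (5 * k), ‖b.ψ j x‖ ^ 2) := by
        have hu : ∀ (A B : Finset (Site d)), ∑ x ∈ A ∪ B, ‖b.ψ j x‖ ^ 2 ≤
            ∑ x ∈ A, ‖b.ψ j x‖ ^ 2 + ∑ x ∈ B, ‖b.ψ j x‖ ^ 2 := by
          intro A B
          rw [← Finset.sum_union_inter]
          have : 0 ≤ ∑ x ∈ A ∩ B, ‖b.ψ j x‖ ^ 2 := Finset.sum_nonneg fun x _ => by positivity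
          linarith
        refine (hu _ _).trans ?_
        gcongr
        exact hu _ _
      refine le_trans ?_ e1
      apply Finset.sum_le_sum_of_subset_of_nonneg
      · intro x hx
        rw [Finset.mem_union, Finset.mem_union, Finset.mem_sdiff, Finset.mem_sdiff]
        by_cases hxs : x ∈ s
        · exact Or.inl hxs
        · by_cases hx5 : x ∈ box (0 : Site d) (5 * k)
          · exact Or.inr (Or.inl ⟨hx5, hxs⟩)
          · exact Or.inr (Or.inr ⟨hx, hx5⟩)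
      · intro x _ _; positivity
    have h4 : ∑ x ∈ box (0 : Site d) (5 * k) \ s, ‖b.ψ j x‖ ^ 2 ≤ 1 / 4 := by
      calc _ ≤ ∑ x ∈ box (0 : Site d) (5 * k) \ s, C ^ 2 * Real.exp (-(μ / 4) * sd x 0) := by
            apply Finset.sum_le_sum
            intro x hx
            rw [Finset.mem_sdiff, mem_box] at hx
            have h5 := hud (8 * k) (b.E j) (b.ψ j) (b.c j) hE (b.fin j) (b.cen j) hcn hcR x
              (by omega)
            have h6 : Real.exp (-(μ / 4) * sd x 0) = Real.exp (-(μ / 8) * sd 0 x) ^ 2 := by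
              rw [← Real.exp_nat_mul, sd_comm]; congr 1; push_cast; ring
            rw [h6]
            calc ‖b.ψ j x‖ ^ 2 ≤ (C * Real.exp (-(μ / 8) * sd 0 x)) ^ 2 :=
                  pow_le_pow_left₀ (norm_nonneg _) h5 2
              _ = _ := by ring
        _ ≤ 1 / 4 := by
            have := hs' _ (Finset.sdiff_disjoint (s := s) (t := box (0 : Site d) (5 * k)))
            rw [Real.norm_eq_abs] at this
            exact (le_abs_self _).trans this.le
    linarith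
  have h2 : (J.card : ℝ) * (1 / 2) ≤ s.card := by
    calc (J.card : ℝ) * (1 / 2) = ∑ _j ∈ J, (1 / 2 : ℝ) := by rw [Finset.sum_const, nsmul_eq_mul]
      _ ≤ ∑ j ∈ J, ∑ x ∈ s, ‖b.ψ j x‖ ^ 2 := Finset.sum_le_sum h1
      _ ≤ ∑ j, ∑ x ∈ s, ‖b.ψ j x‖ ^ 2 := by
          apply Finset.sum_le_sum_of_subset_of_nonneg (Finset.subset_univ _)
          intro j _ _
          positivity
      _ = ∑ x ∈ s, ∑ j, ‖b.ψ j x‖ ^ 2 := Finset.sum_comm
      _ ≤ ∑ _x ∈ s, (1 : ℝ) := Finset.sum_le_sum fun x _ => b.bessel x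
      _ = s.card := by simp
  have h3 : (J.card : ℝ) ≤ 2 * s.card := by linarith
  exact_mod_cast h3

/-- Compactness. -/
theorem limit_eig {V : Site d → ℝ} {a a' μ C₁ : ℝ} {R₀ : ℕ} (hμ : 0 < μ) (hC₁ : 1 ≤ C₁)
    (hdec : CenC V (Set.Icc a a') μ C₁ R₀) (R : ℕ) (u : L2 d) {κ : ℝ} (hκ : 0 < κ) {n₀ : ℕ}
    (H : ∀ k, n₀ ≤ k → ∃ (E : ℝ) (ψ : Site d → ℂ) (c : Site d), E ∈ Set.Icc a a' ∧
      FinEig V (8 * k) E ψ ∧ IsCenter (8 * k) ψ c ∧ 4 * sd 0 c ≤ 3 * (8 * k) ∧ sd 0 c ≤ R ∧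
      κ ≤ ‖pr (8 * k) ψ u‖) :
    ∃ (E : ℝ) (ψ : L2 d), E ∈ Set.Icc a a' ∧ IsEigen V E ψ ∧ ⟪ψ, u⟫_ℂ ≠ 0 := by
  obtain ⟨C, hC, hud⟩ := udecay hμ hC₁ hdec R
  choose! E ψ c hE hψ hc hcn hcR hκn using H
  -- extraction
  set K : Set (ℝ × (Site d → ℂ)) := Set.Icc a a' ×ˢ
    Set.univ.pi fun _ => Metric.closedBall (0 : ℂ) 1 with hK
  have hKc : IsCompact K := isCompact_Icc.prod (isCompact_univ_pi fun _ => isCompact_closedBall _ _)
  have hmem : ∀ n, (E (n₀ + n), ψ (n₀ + n)) ∈ K := by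
    intro n
    refine ⟨hE _ (by omega), ?_⟩
    intro x _
    rw [mem_closedBall_zero_iff]
    exact (hψ _ (by omega)).le_one x
  obtain ⟨⟨E', ψ'⟩, hEm, φ, hφ, hlim⟩ := hKc.tendsto_subseq hmem
  have hlimE : Tendsto (fun k => E (n₀ + φ k)) atTop (𝓝 E') :=
    (continuous_fst.tendsto _).comp hlim
  have hlimψ : ∀ x, Tendsto (fun k => ψ (n₀ + φ k) x) atTop (𝓝 (ψ' x)) := by
    intro x
    exact ((continuous_apply x).tendsto _).comp ((continuous_snd.tendsto _).comp hlim)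
  have hφn : ∀ k, n₀ ≤ n₀ + φ k := fun k => by omega
  have hφk : ∀ k, k ≤ φ k := fun k => hφ.id_le k
  have hdecψ : ∀ x, ‖ψ' x‖ ≤ C * Real.exp (-(μ / 8) * sd 0 x) := by
    intro x
    refine le_of_tendsto (hlimψ x).norm ?_
    filter_upwards [eventually_ge_atTop (sd 0 x)] with k hk
    have := hφk k
    exact hud _ _ _ _ (hE _ (hφn k)) (hψ _ (hφn k)) (hc _ (hφn k)) (hcn _ (hφn k))
      (hcR _ (hφn k)) x (by omega)
  have hsum2 : Summable fun x : Site d => (C * Real.exp (-(μ / 8) * sd 0 x)) ^ 2 := by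
    have := (summable_exp_sd (show 0 < μ / 4 by positivity) (0 : Site d)).mul_left (C ^ 2)
    refine this.congr fun x => ?_
    have h6 : Real.exp (-(μ / 4) * sd x 0) = Real.exp (-(μ / 8) * sd 0 x) ^ 2 := by
      rw [← Real.exp_nat_mul, sd_comm]; congr 1; push_cast; ring
    rw [h6]; ring
  have hmemψ : Memℓp ψ' 2 := by
    rw [memℓp_iff]
    refine Summable.of_nonneg_of_le (fun x => by positivity) (fun x => ?_) hsum2
    exact pow_le_pow_left₀ (norm_nonneg _) (hdecψ x) 2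
  obtain ⟨Ψ, hΨ⟩ : ∃ Ψ : L2 d, ∀ x, Ψ x = ψ' x := ⟨⟨ψ', hmemψ⟩, fun _ => rfl⟩
  refine ⟨E', Ψ, hEm.1, ?_, ?_⟩
  · intro x
    have h1 : Tendsto (fun k => lap (ψ (n₀ + φ k)) x + (V x : ℂ) * ψ (n₀ + φ k) x) atTop
        (𝓝 (lap ψ' x + (V x : ℂ) * ψ' x)) := by
      refine Tendsto.add ?_ ((hlimψ x).const_mul _)
      unfold lap
      apply tendsto_finsetSum
      intro i _
      exact (hlimψ _).add (hlimψ _)
    have h2 : Tendsto (fun k => (E (n₀ + φ k) : ℂ) * ψ (n₀ + φ k) x) atTop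
        (𝓝 ((E' : ℂ) * ψ' x)) :=
      ((Complex.continuous_ofReal.tendsto _).comp hlimE).mul (hlimψ x)
    have h3 : (Ψ : Site d → ℂ) = ψ' := funext hΨ
    rw [h3]
    refine tendsto_nhds_unique (h1.congr' ?_) h2
    filter_upwards [eventually_ge_atTop (sd 0 x)] with k hk
    apply (hψ _ (hφn k)).eq
    rw [mem_box]
    have : k ≤ φ k := hφk k
    omega
  · -- partial sums
    have htr : Tendsto (fun m => ‖u - trunc m u‖) atTop (𝓝 0) := by
      have h1 := ((tendsto_const_nhds (x := u)).sub (tendsto_trunc u)).norm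
      simpa using h1
    have hpart : ∀ m, κ - ‖u - trunc m u‖ ≤ ‖∑ x ∈ box (0 : Site d) m, conj (ψ' x) * u x‖ := by
      intro m
      have h1 : Tendsto (fun k => ‖∑ x ∈ box (0 : Site d) m, conj (ψ (n₀ + φ k) x) * u x‖) atTop
          (𝓝 ‖∑ x ∈ box (0 : Site d) m, conj (ψ' x) * u x‖) := by
        refine Tendsto.norm ?_
        apply tendsto_finsetSum
        intro x _
        exact ((Complex.continuous_conj.tendsto _).comp (hlimψ x)).mul_const _
      refine ge_of_tendsto h1 ?_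
      filter_upwards [eventually_ge_atTop m] with k hk
      have hk' := hφk k
      have hmn : m ≤ 8 * (n₀ + φ k) := by omega
      have h2 : pr (8 * (n₀ + φ k)) (ψ (n₀ + φ k)) u =
          ∑ x ∈ box (0 : Site d) m, conj (ψ (n₀ + φ k) x) * u x +
            pr (8 * (n₀ + φ k)) (ψ (n₀ + φ k)) (u - trunc m u : L2 d) := by
        have h3 : ∑ x ∈ box (0 : Site d) m, conj (ψ (n₀ + φ k) x) * u x =
            ∑ x ∈ box (0 : Site d) (8 * (n₀ + φ k)), conj (ψ (n₀ + φ k) x) * trunc m u x := by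
          rw [← Finset.sum_subset (box_mono 0 hmn)]
          · apply Finset.sum_congr rfl
            intro x hx
            rw [trunc_apply, if_pos hx]
          · intro x _ hx
            rw [trunc_apply, if_neg hx, mul_zero]
        rw [h3]
        unfold pr
        rw [← Finset.sum_add_distrib]
        apply Finset.sum_congr rfl
        intro x _
        rw [lp.coeFn_sub, Pi.sub_apply]
        ring
      have h3 : ‖pr (8 * (n₀ + φ k)) (ψ (n₀ + φ k)) (u - trunc m u : L2 d)‖ ≤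
          ‖u - trunc m u‖ := by
        have h4 := pr_cs (8 * (n₀ + φ k)) (ψ (n₀ + φ k)) (u - trunc m u : L2 d)
        rw [(hψ _ (hφn k)).norm, one_mul] at h4
        have h5 := sum_le_norm_sq (u - trunc m u) (box (0 : Site d) (8 * (n₀ + φ k)))
        exact abs_le_of_sq_le_sq' (h4.trans h5) (norm_nonneg _) |>.2
      have h4 := hκn _ (hφn k)
      rw [h2] at h4
      have h5 := norm_add_le (∑ x ∈ box (0 : Site d) m, conj (ψ (n₀ + φ k) x) * u x)
        (pr (8 * (n₀ + φ k)) (ψ (n₀ + φ k)) (u - trunc m u : L2 d))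
      linarith
    have hsm : Summable fun x : Site d => conj (ψ' x) * u x := by
      apply Summable.of_norm
      have h3 := hsum2.add (L2.summable_sq u)
      refine Summable.of_nonneg_of_le (fun x => by positivity) (fun x => ?_) h3
      rw [norm_mul, RCLike.norm_conj]
      have h4 := hdecψ x
      nlinarith [sq_nonneg (C * Real.exp (-(μ / 8) * sd 0 x) - ‖u x‖),
          sq_nonneg (C * Real.exp (-(μ / 8) * sd 0 x)), sq_nonneg ‖u x‖,
          mul_le_mul_of_nonneg_right h4 (norm_nonneg (u x)), norm_nonneg (u x)]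
    have hL : Tendsto (fun m => ‖∑ x ∈ box (0 : Site d) m, conj (ψ' x) * u x‖) atTop
        (𝓝 ‖∑' x, conj (ψ' x) * u x‖) := (hsm.hasSum.comp tendsto_box).norm
    have hR' : Tendsto (fun m => κ - ‖u - trunc m u‖) atTop (𝓝 κ) := by
      simpa using (tendsto_const_nhds (x := κ)).sub htr
    have hfin : κ ≤ ‖∑' x, conj (ψ' x) * u x‖ := le_of_tendsto_of_tendsto' hR' hL hpart
    intro h0
    rw [lp.inner_eq_tsum] at h0
    have h5 : ∑' x, conj (ψ' x) * u x = 0 := by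
      rw [← h0]
      apply tsum_congr
      intro x
      rw [RCLike.inner_apply, mul_comm, hΨ x]
    rw [h5, norm_zero] at hfin
    linarith

end Pool.Agent.Mob.H46
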